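import Mathlib
import Pool.Agent.Helper273.Gen.Main4

/-!
# Superposition complexity of a root of the general polynomial

Characteristic 0. `tower k x r s` is the field `M_r^s` of the problem (for `s ≥ 1`).

The least `s` with `f ∈ M_r^s` is determined for all `n ≤ 6` and all `r`, except for the pair
`n = 6`, `r = 1`. For all `n ≥ 5`: `f ∈ M_{n-3}^2`, `f ∈ M_{n-4}^3`, and `f ∉ M_r^2` for `r < n / 2`.
For every `d` and all `n ≥ max 5 (d + binomial (2 d - 2) (d - 1))`: `f ∈ M_{n-d}^3`.

* Upper bounds. If a field `U` of transcendence degree at most `r` over `k` is stable under the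
  automorphisms over `M`, then `U` is contained in the compositum of the fields `[t_1, ..., t_r]`
  with `t_i` in `M` (`curve_trick`, `curve_trick2`). Applied to the cross ratios of the roots this
  gives `f ∈ M_{n-3}^2`. For `n = 5` the rulings of the quadric `∑ z = ∑ z^2 = 0` over `M_1^2` give
  `f ∈ M_1^3`. For `n = 6` the twisted Valentiner action of the alternating group on the projective
  plane has a fixed point over `M_2^2`, so `f ∈ M_2^3`. For `n ≥ 7` a Tschirnhaus transformation
  with coefficients in `M_{n-4}^2` leads to `∑ z = ∑ z^2 = ∑ z^3 = 0`: the quadric contains a line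
  defined after two square roots (one if `n = 7`, by Springer's theorem for the subgroup
  `S_4 × S_2` of odd index in `S_7`), and the cubic on this line is solved by algebraic functions of
  four (two) elements of `k(x)`; the ratios of the `z_i` then generate a stable field of
  transcendence degree at most `n - 4`. For general `d` one solves `d - 2` homogeneous equations in
  `d - 1` unknowns with `binomial (2 d - 2) (d - 1)` coefficients in `k(x)`.
* Lower bound. If `f ∈ M_r^2`, then (normal subgroups of `S_n`) the group `S_n` acts faithfully on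
  `k(y_1, ..., y_n) ∩ [t_1, ..., t_r]` for one choice of `t_i ∈ k(x)`; the disjoint transpositions
  give eigenelements whose leading exponents are linearly independent, so `n / 2 ≤ r`.
-/

set_option autoImplicit false

namespace Pool.Agent.Results.MP_da1d0d_al.AllStages

open IntermediateField Pool.Agent.Helper273.Sup

/-- Main theorem: least stages for `n ≤ 6` (all `r`, except `n = 6`, `r = 1`), and bounds for the
stages `s = 2` and `s = 3` for all `n ≥ 5`. -/
theorem result (k : Type*) [Field k] [IsAlgClosed k] [CharZero k] (K : Type*) [Field K]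
    [Algebra k K] [IsAlgClosed K] (n : ℕ) (x : Fin n → K)
    (hx : AlgebraicIndependent k x) (hK : Algebra.IsAlgebraic (adjoin k (Set.range x)) K)
    (f : K) (hf : f ^ n + ∑ i : Fin n, x i * f ^ (n - 1 - (i : ℕ)) = 0) :
    (n = 1 → ∀ r, IsLeast {s | 1 ≤ s ∧ f ∈ tower k x r s} 1) ∧
    ((n = 2 ∨ n = 3 ∨ n = 4) → ∀ r, 1 ≤ r → IsLeast {s | 1 ≤ s ∧ f ∈ tower k x r s} 2) ∧
    (n = 5 → IsLeast {s | 1 ≤ s ∧ f ∈ tower k x 1 s} 3 ∧
      ∀ r, 2 ≤ r → IsLeast {s | 1 ≤ s ∧ f ∈ tower k x r s} 2) ∧
    (n = 6 → IsLeast {s | 1 ≤ s ∧ f ∈ tower k x 2 s} 3 ∧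
      ∀ r, 3 ≤ r → IsLeast {s | 1 ≤ s ∧ f ∈ tower k x r s} 2) ∧
    (5 ≤ n → (∀ r, n - 3 ≤ r → IsLeast {s | 1 ≤ s ∧ f ∈ tower k x r s} 2) ∧
      (∀ r, n - 4 ≤ r → f ∈ tower k x r 3) ∧
      (∀ d, d + Nat.centralBinom (d - 1) ≤ n → ∀ r, n - d ≤ r → f ∈ tower k x r 3) ∧
      ∀ r, r < n / 2 → ∀ s, 1 ≤ s → f ∈ tower k x r s → 3 ≤ s) := by
  obtain ⟨h1, h2, h5, h⟩ := main k K n x hx hK f hf
  refine ⟨h1, h2, h5, ?_, ?_⟩
  · rintro rfl
    exact main_six k K x hx hK f hf
  · intro hn
    exact ⟨(h hn).1, fun r hr => main_three k K n hn x hx hK f hf r hr,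
      fun d hd r hr => main_gen k K n hn x hx hK f hf d hd r hr, (h hn).2⟩

end Pool.Agent.Results.MP_da1d0d_al.AllStages
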