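import Mathlib
import Pool.Agent.Helper273.Gen.Main4

/-!
# Superposition complexity of a root of the general polynomial: three stages suffice for `r = n - d`

Characteristic 0. `tower k x r s` is the field `M_r^s` of the problem (for `s ≥ 1`).

For every `d` and all `n ≥ max 5 (d + binomial (2 d - 2) (d - 1))` we have `f ∈ M_{n-d}^3`, and
`f ∈ M_{n-4}^3`, `f ∈ M_{n-3}^2` for all `n ≥ 5`; `f ∉ M_r^2` for `r < n / 2`; the least `s` is
determined for `n ≤ 6` except for the pair `n = 6`, `r = 1`.

* A Tschirnhaus transformation `z = c_1 b_1 + ... + c_(d-1) b_(d-1)` with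
  `∑ z = ∑ z^2 = ... = ∑ z^(d-1) = 0` is found by solving `d - 2` homogeneous equations in `d - 1`
  unknowns, whose coefficients are `binomial (2 d - 2) (d - 1)` elements of `k(x)`; so the `c_j`
  are algebraic functions of that many elements of `k(x)`, and lie in `M_{n-d}^2`. The ratios of the
  `z_i` generate a field of transcendence degree at most `n - d` which is stable under the
  automorphisms over `M_{n-d}^2`; such a field lies in the compositum of the fields
  `[t_1, ..., t_{n-d}]` with `t_i ∈ M_{n-d}^2`.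
* For the other parts see `StageThree.lean`.
-/

set_option autoImplicit false

namespace Pool.Agent.Results.MP_da1d0d_al.StageThreeGeneral

open IntermediateField Pool.Agent.Helper273.Sup

/-- Main theorem: bounds for the stages `s = 2` and `s = 3` for all `n ≥ 5`, and least stages for
`n = 5, 6`. -/
theorem result (k : Type*) [Field k] [IsAlgClosed k] [CharZero k] (K : Type*) [Field K]
    [Algebra k K] [IsAlgClosed K] (n : ℕ) (hn : 5 ≤ n) (x : Fin n → K)
    (hx : AlgebraicIndependent k x) (hK : Algebra.IsAlgebraic (adjoin k (Set.range x)) K)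
    (f : K) (hf : f ^ n + ∑ i : Fin n, x i * f ^ (n - 1 - (i : ℕ)) = 0) :
    (∀ d, d + Nat.centralBinom (d - 1) ≤ n → ∀ r, n - d ≤ r → f ∈ tower k x r 3) ∧
    (∀ r, n - 4 ≤ r → f ∈ tower k x r 3) ∧
    (∀ r, n - 3 ≤ r → IsLeast {s | 1 ≤ s ∧ f ∈ tower k x r s} 2) ∧
    (∀ r, r < n / 2 → ∀ s, 1 ≤ s → f ∈ tower k x r s → 3 ≤ s) ∧
    (n = 5 → IsLeast {s | 1 ≤ s ∧ f ∈ tower k x 1 s} 3) ∧
    (n = 6 → IsLeast {s | 1 ≤ s ∧ f ∈ tower k x 2 s} 3) := by
  obtain ⟨-, -, h5, h⟩ := main k K n x hx hK f hf
  refine ⟨fun d hd r hr => main_gen k K n hn x hx hK f hf d hd r hr,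
    fun r hr => main_three k K n hn x hx hK f hf r hr, (h hn).1, (h hn).2,
    fun h' => (h5 h').1, ?_⟩
  rintro rfl
  exact (main_six k K x hx hK f hf).1

end Pool.Agent.Results.MP_da1d0d_al.StageThreeGeneral
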